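import Pool.Agent.helper132_hp.WAs
import Pool.Agent.helper132_hp.T_LOC2
import Pool.Agent.helper132_hp.T_ZAR
import Pool.Agent.helper132_hp.T_FINI

/-!
# Mazur's question for quadratic forms in `k`-th powers in `≥ C k ^ 65` variables

Let `Q` be a rational quadratic form of rank `s`, `F(y) = Q(y_1 ^ k, …, y_s ^ k)` and let
`X : F = 0` in `ℙ ^ (s - 1)`, a hypersurface of degree `2 k` over `ℚ`. There is a constant `C` such
that, for `k ≥ 1` and `s ≥ C k ^ 65`, the ideals of the local Zariski closures `Z_x` of `X(ℚ)` at the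
points `x` of `X(ℚ_v)` take only finitely many values,

* for every place `v` of `ℚ`, if `k` is odd or `X` is smooth,
* for every prime `v = p`, if `F` has a nonsingular real zero.

(`LocId L F x` consists of the polynomials that vanish on the cone over the rational points of `X`
in some neighbourhood of the point `x ∈ X(L)`.)
-/

set_option autoImplicit false

namespace Pool.Agent.Results.MP_f9f755_nt.QuadraticFormsInPowers

open Pool.Agent.helper132_hp

theorem result : ∃ C : ℕ, ∀ k ≥ 1, ∀ s ≥ C * k ^ 65, ∀ A : Matrix (Fin s) (Fin s) ℚ,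
    A.IsSymm → A.det ≠ 0 →
    ((Odd k ∨ SmoothHyp (form A k)) → (LocalIdeals ℝ (form A k)).Finite) ∧
    ((Odd k ∨ SmoothHyp (form A k) ∨ SmoothReal A k) →
      ∀ (p : ℕ) [Fact p.Prime], (LocalIdeals ℚ_[p] (form A k)).Finite) :=
  t_LOC was slim t_ODDL (t_FINI t_ZAR)

end Pool.Agent.Results.MP_f9f755_nt.QuadraticFormsInPowers
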